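import Pool.Agent.Helper42.LK.Defs

/-!
# LK project: reduced global equation (KRM)
-/

namespace Pool.Agent.Helper42.LK

open Pool.Agent.Helper42.LS NumberField

lemma krm_supp {K : Type} [Field K] [NumberField K] {c : K} (hc : c ≠ 0) :
    (Function.support fun v : FinitePlace K => Real.log (v c)).Finite := by
  refine (FinitePlace.hasFiniteMulSupport hc).subset fun v hv h1 => hv ?_
  have h2 : v c = 1 := h1
  change Real.log (v c) = 0
  rw [h2, Real.log_one]

lemma krm_prod {K : Type} [Field K] [NumberField K] {c : K} (hc : c ≠ 0) :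
    ∑ᶠ v : FinitePlace K, Real.log (v c) +
      ∑ w : InfinitePlace K, (w.mult : ℝ) * Real.log (w c) = 0 := by
  have h := NumberField.prod_abs_eq_one hc
  have hpos : ∀ v : FinitePlace K, 0 < v c := fun v => FinitePlace.pos_iff.2 hc
  have hposw : ∀ w : InfinitePlace K, 0 < w c := fun w => InfinitePlace.pos_iff.mpr hc
  have h1 := congrArg Real.log h
  rw [Real.log_one, Real.log_mul, Real.log_finprod hpos, Real.log_prod] at h1
  · simp only [Real.log_pow] at h1
    rw [add_comm]
    exact h1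
  · intro w _
    exact (pow_pos (hposw w) _).ne'
  · exact (Finset.prod_pos fun w _ => pow_pos (hposw w) _).ne'
  · intro h0
    rw [h0, mul_zero] at h
    exact zero_ne_one h

lemma krm_num {K : Type} [Field K] [NumberField K] (w : InfinitePlace K) (n : ℕ) :
    w (n : K) = n := by
  rw [← InfinitePlace.norm_embedding_eq, map_natCast]
  exact Complex.norm_natCast n

lemma krm_sub {K : Type} [Field K] [NumberField K] (w : InfinitePlace K) (x y : K) :
    w (x - y) ≤ w x + w y := by
  rw [← InfinitePlace.norm_embedding_eq, ← InfinitePlace.norm_embedding_eq,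
    ← InfinitePlace.norm_embedding_eq, map_sub]
  exact norm_sub_le _ _

/-- Size of `(A, B)` at an archimedean place: the inequality with `j`. -/
lemma krm_arch {a b d : ℝ} (ha : 0 ≤ a) (hb : 0 ≤ b) (hd : 0 < d)
    (h : 27 * b ^ 2 ≤ d + 4 * a ^ 3) (hab : 0 < a ∨ 0 < b) :
    12 * Real.log (max (a ^ (1 / 4 : ℝ)) (b ^ (1 / 6 : ℝ))) - Real.log d
      ≤ max 0 (Real.log (6912 * a ^ 3 / d)) := by
  have hp1 : 0 ≤ a ^ (1 / 4 : ℝ) := Real.rpow_nonneg ha _
  have hp2 : 0 ≤ b ^ (1 / 6 : ℝ) := Real.rpow_nonneg hb _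
  have e1 : (a ^ (1 / 4 : ℝ)) ^ 12 = a ^ 3 := by
    rw [← Real.rpow_natCast, ← Real.rpow_mul ha, ← Real.rpow_natCast]
    norm_num
  have e2 : (b ^ (1 / 6 : ℝ)) ^ 12 = b ^ 2 := by
    rw [← Real.rpow_natCast, ← Real.rpow_mul hb, ← Real.rpow_natCast]
    norm_num
  set R := max (a ^ (1 / 4 : ℝ)) (b ^ (1 / 6 : ℝ)) with hR
  have hRpos : 0 < R := by
    rcases hab with h1 | h1
    · exact lt_max_of_lt_left (Real.rpow_pos_of_pos h1 _)
    · exact lt_max_of_lt_right (Real.rpow_pos_of_pos h1 _)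
  have hR12 : R ^ 12 = max (a ^ 3) (b ^ 2) := by
    rcases le_total (a ^ (1 / 4 : ℝ)) (b ^ (1 / 6 : ℝ)) with h1 | h1
    · have h2 : R = b ^ (1 / 6 : ℝ) := max_eq_right h1
      have h3 : a ^ 3 ≤ b ^ 2 := by
        rw [← e1, ← e2]
        exact pow_le_pow_left₀ hp1 h1 12
      rw [h2, e2, max_eq_right h3]
    · have h2 : R = a ^ (1 / 4 : ℝ) := max_eq_left h1
      have h3 : b ^ 2 ≤ a ^ 3 := by
        rw [← e1, ← e2]
        exact pow_le_pow_left₀ hp2 h1 12
      rw [h2, e1, max_eq_left h3]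
  have hlog : 12 * Real.log R - Real.log d = Real.log (R ^ 12 / d) := by
    rw [Real.log_div (pow_pos hRpos 12).ne' hd.ne', Real.log_pow]
    norm_num
  rw [hlog]
  have hpos : 0 < R ^ 12 / d := div_pos (pow_pos hRpos 12) hd
  have hbound : R ^ 12 / d ≤ max 1 (6912 * a ^ 3 / d) := by
    rw [hR12, div_le_iff₀ hd]
    have h3 : 0 ≤ a ^ 3 := pow_nonneg ha 3
    have h5 : max 1 (6912 * a ^ 3 / d) * d = max d (6912 * a ^ 3) := by
      rw [max_mul_of_nonneg _ _ hd.le, one_mul, div_mul_cancel₀ _ hd.ne']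
    rw [h5]
    refine max_le (le_max_of_le_right (by nlinarith)) ?_
    rcases le_total d (6912 * a ^ 3) with h6 | h6
    · rw [max_eq_right h6]
      nlinarith
    · rw [max_eq_left h6]
      nlinarith
  calc Real.log (R ^ 12 / d) ≤ Real.log (max 1 (6912 * a ^ 3 / d)) :=
        Real.log_le_log hpos hbound
    _ ≤ max 0 (Real.log (6912 * a ^ 3 / d)) := by
        rcases le_total 1 (6912 * a ^ 3 / d) with h6 | h6
        · rw [max_eq_right h6]; exact le_max_right _ _
        · rw [max_eq_left h6, Real.log_one]; exact le_max_left _ _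

theorem st_KRM (hMK : ST_KMK) (hMN : ST_KMN) (hFP : ST_KFP) (hDF : ST_KDF) : ST_KRM := by
  intro K _ _
  obtain ⟨C, hC⟩ := hMK K
  refine ⟨12 * C, fun A B hD => ?_⟩
  obtain ⟨hbad, hloc, -, hsum, -⟩ := hDF K A B hD
  -- minimal scalings
  have hex : ∀ v : FinitePlace K, ∃ a : K, a ≠ 0 ∧ v (a ^ 4 * A) ≤ 1 ∧ v (a ^ 6 * B) ≤ 1 ∧
      dl (fun x : K => v x) A B = -Real.log (v (a ^ 12 * dsc A B)) := by
    intro v
    obtain ⟨V, hV, -⟩ := hFP K v
    obtain ⟨u, hu, h1, h2, -, h3, -⟩ := hMN K V A B hD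
    have hVf : V.nr = fun x : K => v x := funext hV
    have hdsc : dsc (u ^ 4 * A) (u ^ 6 * B) = u ^ 12 * dsc A B := by
      unfold dsc; ring
    rw [hVf] at h1 h2 h3
    rw [hdsc] at h3
    exact ⟨u, hu, h1, h2, h3⟩
  choose a ha0 haA haB hadl using hex
  have hvD : ∀ v : FinitePlace K, 0 < v (dsc A B) := fun v => FinitePlace.pos_iff.2 hD
  have hva : ∀ v : FinitePlace K, 0 < v (a v) := fun v => FinitePlace.pos_iff.2 (ha0 v)
  have hlogeq : ∀ v : FinitePlace K, dl (fun x : K => v x) A B + Real.log (v (dsc A B))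
      = -12 * Real.log (v (a v)) := by
    intro v
    rw [hadl v, map_mul, map_pow, Real.log_mul (pow_pos (hva v) 12).ne' (hvD v).ne',
      Real.log_pow]
    push_cast
    ring
  have hafin : {v : FinitePlace K | v (a v) ≠ 1}.Finite := by
    refine hbad.subset fun v hv hgood => hv ?_
    obtain ⟨g1, g2, g3, g4, g5⟩ := hgood
    have h1 := (hloc v).2.2.2.2 g1 g2 g3 g4 g5
    have h2 := hlogeq v
    rw [h1, g5, Real.log_one] at h2
    have h3 : Real.log (v (a v)) = 0 := by linarith
    exact Real.eq_one_of_pos_of_log_eq_zero (hva v) h3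
  have hAB : A ≠ 0 ∨ B ≠ 0 := by
    by_contra hc
    push Not at hc
    apply hD
    rw [hc.1, hc.2]
    unfold dsc
    ring
  let R : InfinitePlace K → ℝ := fun w => max ((w A) ^ (1 / 4 : ℝ)) ((w B) ^ (1 / 6 : ℝ))
  have hRpos : ∀ w, 0 < R w := by
    intro w
    rcases hAB with h | h
    · exact lt_max_of_lt_left (Real.rpow_pos_of_pos (InfinitePlace.pos_iff.2 h) _)
    · exact lt_max_of_lt_right (Real.rpow_pos_of_pos (InfinitePlace.pos_iff.2 h) _)
  obtain ⟨u, l, hu, hl, hfin, hinf, hbound⟩ := hC a R ha0 hafin hRpos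
  refine ⟨u, l, hu, hl, fun v => ⟨?_, ?_⟩, fun w => ⟨?_, ?_⟩, ?_⟩
  · refine le_trans ?_ (haA v)
    rw [map_mul, map_mul, map_pow, map_pow]
    exact mul_le_mul_of_nonneg_right (pow_le_pow_left₀ (apply_nonneg v _) (hfin v) 4)
      (apply_nonneg v _)
  · refine le_trans ?_ (haB v)
    rw [map_mul, map_mul, map_pow, map_pow]
    exact mul_le_mul_of_nonneg_right (pow_le_pow_left₀ (apply_nonneg v _) (hfin v) 6)
      (apply_nonneg v _)
  · have h1 : w A ≤ R w ^ 4 := by
      have h2 : ((w A) ^ (1 / 4 : ℝ)) ^ 4 = w A := by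
        rw [← Real.rpow_natCast, ← Real.rpow_mul (apply_nonneg w A)]
        norm_num
      calc w A = ((w A) ^ (1 / 4 : ℝ)) ^ 4 := h2.symm
        _ ≤ R w ^ 4 := pow_le_pow_left₀ (Real.rpow_nonneg (apply_nonneg w A) _)
          (le_max_left _ _) 4
    rw [map_mul, map_pow]
    calc w u ^ 4 * w A ≤ (l / R w) ^ 4 * R w ^ 4 :=
          mul_le_mul (pow_le_pow_left₀ (apply_nonneg w _) (hinf w) 4) h1 (apply_nonneg w _)
            (pow_nonneg (div_nonneg hl.le (hRpos w).le) 4)
      _ = l ^ 4 := by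
          rw [← mul_pow, div_mul_cancel₀ _ (hRpos w).ne']
  · have h1 : w B ≤ R w ^ 6 := by
      have h2 : ((w B) ^ (1 / 6 : ℝ)) ^ 6 = w B := by
        rw [← Real.rpow_natCast, ← Real.rpow_mul (apply_nonneg w B)]
        norm_num
      calc w B = ((w B) ^ (1 / 6 : ℝ)) ^ 6 := h2.symm
        _ ≤ R w ^ 6 := pow_le_pow_left₀ (Real.rpow_nonneg (apply_nonneg w B) _)
          (le_max_right _ _) 6
    rw [map_mul, map_pow]
    calc w u ^ 6 * w B ≤ (l / R w) ^ 6 * R w ^ 6 :=
          mul_le_mul (pow_le_pow_left₀ (apply_nonneg w _) (hinf w) 6) h1 (apply_nonneg w _)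
            (pow_nonneg (div_nonneg hl.le (hRpos w).le) 6)
      _ = l ^ 6 := by
          rw [← mul_pow, div_mul_cancel₀ _ (hRpos w).ne']
  · have hsupdl : (Function.support fun v : FinitePlace K =>
        dl (fun x : K => v x) A B).Finite := by
      refine hbad.subset fun v hv hgood => hv ?_
      obtain ⟨g1, g2, g3, g4, g5⟩ := hgood
      exact (hloc v).2.2.2.2 g1 g2 g3 g4 g5
    have e1 : -12 * ∑ᶠ v : FinitePlace K, Real.log (v (a v))
        = LD A B + ∑ᶠ v : FinitePlace K, Real.log (v (dsc A B)) := by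
      unfold LD
      rw [← finsum_add_distrib hsupdl (krm_supp hD), ← smul_eq_mul, smul_finsum]
      refine finsum_congr fun v => ?_
      rw [hlogeq v, smul_eq_mul]
    have e2 := krm_prod hD
    have e3 : ∑ w : InfinitePlace K, (w.mult : ℝ) * (12 * Real.log (R w) -
        Real.log (w (dsc A B))) ≤ ∑ w : InfinitePlace K, (w.mult : ℝ) *
          max 0 (Real.log (w (6912 * A ^ 3 / dsc A B))) := by
      refine Finset.sum_le_sum fun w _ => mul_le_mul_of_nonneg_left ?_ (Nat.cast_nonneg _)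
      have hwD : 0 < w (dsc A B) := InfinitePlace.pos_iff.2 hD
      have h27 : 27 * w B ^ 2 ≤ w (dsc A B) + 4 * w A ^ 3 := by
        have h1 : (27 : K) * B ^ 2 = dsc A B - 4 * A ^ 3 := by unfold dsc; ring
        have h2 : w (27 * B ^ 2) ≤ w (dsc A B) + w (4 * A ^ 3) := by
          rw [h1]
          exact krm_sub w _ _
        have h3 : w (27 * B ^ 2) = 27 * w B ^ 2 := by
          rw [map_mul, map_pow]
          congr 1
          exact_mod_cast krm_num w 27
        have h4 : w (4 * A ^ 3) = 4 * w A ^ 3 := by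
          rw [map_mul, map_pow]
          congr 1
          exact_mod_cast krm_num w 4
        rw [h3, h4] at h2
        exact h2
      have hab : 0 < w A ∨ 0 < w B := by
        rcases hAB with h | h
        · exact Or.inl (InfinitePlace.pos_iff.2 h)
        · exact Or.inr (InfinitePlace.pos_iff.2 h)
      have h5 : w (6912 * A ^ 3 / dsc A B) = 6912 * w A ^ 3 / w (dsc A B) := by
        rw [map_div₀, map_mul, map_pow]
        congr 2
        exact_mod_cast krm_num w 6912
      rw [h5]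
      exact krm_arch (apply_nonneg w A) (apply_nonneg w B) hwD h27 hab
    have e4 : ∑ w : InfinitePlace K, (w.mult : ℝ) * (12 * Real.log (R w) -
        Real.log (w (dsc A B))) = 12 * ∑ w : InfinitePlace K, (w.mult : ℝ) * Real.log (R w) -
        ∑ w : InfinitePlace K, (w.mult : ℝ) * Real.log (w (dsc A B)) := by
      rw [Finset.mul_sum, ← Finset.sum_sub_distrib]
      refine Finset.sum_congr rfl fun w _ => ?_
      ring
    rw [e4] at e3
    linarith

end Pool.Agent.Helper42.LK
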