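import Pool.Agent.Helper42.LK.Defs

/-!
# LK project: finite places are discrete valuations (KFP)
-/

namespace Pool.Agent.Helper42.LK

open Pool.Agent.Helper42.LS NumberField IsDedekindDomain

lemma kfp_val {K : Type} [Field K] [NumberField K] (v : FinitePlace K) {x : K} (hx : x ≠ 0) :
    v x = ((Ideal.absNorm v.maximalIdeal.asIdeal : ℕ) : ℝ) ^
      (WithZero.log (v.maximalIdeal.valuation K x)) := by
  have hvx : v.maximalIdeal.valuation K x ≠ 0 := (Valuation.ne_zero_iff _).mpr hx
  rw [← FinitePlace.norm_embedding_eq v x, FinitePlace.norm_embedding,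
    HeightOneSpectrum.adicAbv_def, WithZeroMulInt.toNNReal_neg_apply _ hvx]
  push_cast
  rw [WithZero.toAdd_unzero_eq_log]

theorem st_KFP : ST_KFP := by
  intro K _ _ v
  have h1q : (1 : ℝ) < ((Ideal.absNorm v.maximalIdeal.asIdeal : ℕ) : ℝ) := by
    exact_mod_cast HeightOneSpectrum.one_lt_absNorm v.maximalIdeal
  have hne : ∀ x : K, x ≠ 0 → v.maximalIdeal.valuation K x ≠ 0 := fun x hx =>
    (Valuation.ne_zero_iff _).mpr hx
  refine ⟨{ ord := fun x => -(WithZero.log (v.maximalIdeal.valuation K x))
            q := ((Ideal.absNorm v.maximalIdeal.asIdeal : ℕ) : ℝ)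
            one_lt_q := h1q
            ord_zero := by simp
            ord_mul := ?_
            ord_add := ?_
            unif := ?_ }, ?_, rfl⟩
  · intro a b ha hb
    rw [map_mul, WithZero.log_mul (hne a ha) (hne b hb)]
    ring
  · intro a b ha hb hab
    have h := Valuation.map_add (v.maximalIdeal.valuation K) a b
    rcases le_max_iff.1 h with h1 | h1
    · have := (WithZero.log_le_log (hne _ hab) (hne a ha)).2 h1
      exact min_le_of_left_le (neg_le_neg this)
    · have := (WithZero.log_le_log (hne _ hab) (hne b hb)).2 h1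
      exact min_le_of_right_le (neg_le_neg this)
  · obtain ⟨p, hp⟩ := v.maximalIdeal.valuation_exists_uniformizer K
    refine ⟨p, ?_⟩
    rw [hp]
    simp
  · intro x
    unfold DV.nr
    split_ifs with hx
    · rw [hx, map_zero]
    · rw [kfp_val v hx]
      simp

end Pool.Agent.Helper42.LK
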