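import Pool.Agent.Helper42.LK.Defs

/-!
# LK project: folded duplication law (CFD) and the inequality for the potential (CP)
-/

namespace Pool.Agent.Helper42.LK

open Pool.Agent.Helper42.LS

lemma cfd_mk_pos {κ : ℂ} (hκ : κ ≠ 0) (s : ℂ) : 0 < mk κ s :=
  lt_max_of_lt_right (norm_pos_iff.mpr hκ)

lemma cfd_min_pos {κ : ℂ} (hκ : κ ≠ 0) (s : ℂ) : 0 < min 1 (mk κ s) :=
  lt_min one_pos (cfd_mk_pos hκ s)

lemma cfd_fk {κ : ℂ} (hκ : κ ≠ 0) (s : ℂ) : fk κ s = -Real.log (min 1 (mk κ s)) / 2 := by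
  have h := cfd_mk_pos hκ s
  unfold fk
  congr 1
  change max 0 (-Real.log (mk κ s)) = _
  rcases le_total 1 (mk κ s) with h1 | h1
  · rw [min_eq_left h1, Real.log_one, neg_zero, max_eq_left]
    have := Real.log_nonneg h1
    linarith
  · rw [min_eq_right h1, max_eq_right]
    have := Real.log_nonpos h.le h1
    linarith

/-- The real inequalities. -/
lemma cfd_core {S S' P Q N k m T m' : ℝ} (hS : 0 < S) (hS' : 0 ≤ S') (hk : 0 < k)
    (hk1 : k ≤ 1 / 100) (hP : 0 < P) (hQ : 0 < Q)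
    (hP1 : P ≤ S + k) (hP2 : S - k ≤ P) (hQ1 : Q ≤ S + 4 + k) (hQ2 : 4 - k - S ≤ Q)
    (hN0 : 0 ≤ N) (hN1 : N ≤ S ^ 2 + k * (4 + k)) (hN2 : S ^ 2 - k * (4 + k) ≤ N)
    (hN3 : k * (4 - k) - S ^ 2 ≤ N)
    (heq : S' * (4 * S * P * Q) = N ^ 2) (hm : m = min 1 (max S k))
    (hT : T = (max m (k / m)) ^ 2) (hm' : m' = min 1 (max S' k)) :
    T ≤ 1000 * m' ∧ m' ≤ 1000 * T := by
  have hmpos : 0 < m := by rw [hm]; exact lt_min one_pos (lt_max_of_lt_left hS)
  have hm1 : m ≤ 1 := by rw [hm]; exact min_le_left _ _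
  have hkm : k ≤ m := by rw [hm]; exact le_min (by linarith) (le_max_right _ _)
  have hkm1 : k / m ≤ 1 := (div_le_one hmpos).2 hkm
  have hkmpos : 0 < k / m := div_pos hk hmpos
  have hT1 : T ≤ 1 := by
    rw [hT]
    exact pow_le_one₀ (le_max_of_le_left hmpos.le) (max_le hm1 hkm1)
  have hTm : m ^ 2 ≤ T := by
    rw [hT]
    exact pow_le_pow_left₀ hmpos.le (le_max_left _ _) 2
  have hTk : (k / m) ^ 2 ≤ T := by
    rw [hT]
    exact pow_le_pow_left₀ hkmpos.le (le_max_right _ _) 2
  have hkT : k ≤ T := by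
    have h1 : m * (k / m) = k := by field_simp
    have h2 : m * (k / m) ≤ T := by nlinarith [sq_nonneg (m - k / m)]
    linarith
  have hTor : T = m ^ 2 ∨ T = (k / m) ^ 2 := by
    rw [hT]
    rcases le_total m (k / m) with h | h
    · right; rw [max_eq_right h]
    · left; rw [max_eq_left h]
  have hm'1 : m' ≤ 1 := by rw [hm']; exact min_le_left _ _
  have hm'k : k ≤ m' := by rw [hm']; exact le_min (by linarith) (le_max_right _ _)
  have hm'S : min 1 S' ≤ m' := by
    rw [hm']
    exact min_le_min le_rfl (le_max_left _ _)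
  have hD : 0 < 4 * S * P * Q := by positivity
  rcases le_or_gt (3 / 10) S with hA | hA
  · -- `S` is not small
    have hmA : 3 / 10 ≤ m := by
      rw [hm]
      exact le_min (by norm_num) (le_max_of_le_left hA)
    have hT0 : 9 / 100 ≤ T := by nlinarith
    have hS2 : 9 / 100 ≤ S ^ 2 := by nlinarith
    have hN4 : S ^ 2 / 2 ≤ N := by nlinarith
    have hP3 : P ≤ 31 / 30 * S := by linarith
    have hQ3 : Q ≤ S + 401 / 100 := by linarith
    have hlow : S ^ 4 / 4 ≤ S' * (4 * S * (31 / 30 * S) * (S + 401 / 100)) := by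
      have h1 : S ^ 4 / 4 ≤ N ^ 2 := by nlinarith
      have h2 : 4 * S * P * Q ≤ 4 * S * (31 / 30 * S) * (S + 401 / 100) := by
        have h3 : 4 * S * P ≤ 4 * S * (31 / 30 * S) := by nlinarith
        exact mul_le_mul h3 hQ3 hQ.le (by positivity)
      have h4 := mul_le_mul_of_nonneg_left h2 hS'
      linarith
    have hS'low : 1 / 1000 ≤ S' := by
      by_contra hc
      push Not at hc
      have h1 : S' * (4 * S * (31 / 30 * S) * (S + 401 / 100))
          ≤ (1 / 1000) * (4 * S * (31 / 30 * S) * (S + 401 / 100)) :=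
        mul_le_mul_of_nonneg_right hc.le (by positivity)
      have h2 : S ^ 4 / 4 ≤ (1 / 1000) * (4 * S * (31 / 30 * S) * (S + 401 / 100)) :=
        le_trans hlow h1
      have h3 : S ^ 2 * (S ^ 2 / 4) ≤ S ^ 2 * ((1 / 1000) * (4 * (31 / 30) * (S + 401 / 100))) := by
        nlinarith
      have h4 := le_of_mul_le_mul_left h3 (by positivity)
      nlinarith
    have hm'2 : 1 / 1000 ≤ m' := le_trans (le_min (by norm_num) hS'low) hm'S
    exact ⟨by linarith, by linarith⟩
  · have hQlo : 369 / 100 ≤ Q := by linarith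
    have hQhi : Q ≤ 431 / 100 := by linarith
    rcases le_or_gt S (4 * k) with hB | hB
    · -- `S` is comparable with `k`
      have hm4 : m ≤ 4 * k := by
        rw [hm]
        exact min_le_of_right_le (max_le hB (by linarith))
      have hT0 : 1 / 16 ≤ T := by
        have h1 : 1 / 4 ≤ k / m := by
          rw [le_div_iff₀ hmpos]
          linarith
        nlinarith
      have hN4 : 3 * k ≤ N := by nlinarith
      have h1 : N ^ 2 ≤ S' * (4 * (4 * k) * (5 * k) * (431 / 100)) := by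
        rw [← heq]
        refine mul_le_mul_of_nonneg_left ?_ hS'
        have h2 : 4 * S * P ≤ 4 * (4 * k) * (5 * k) := by
          have h3 : S * P ≤ (4 * k) * (5 * k) :=
            mul_le_mul hB (by linarith) hP.le (by positivity)
          nlinarith
        exact mul_le_mul h2 hQhi hQ.le (by positivity)
      have h2 : (3 * k) ^ 2 ≤ N ^ 2 := pow_le_pow_left₀ (by positivity) hN4 2
      have hS'low : 1 / 100 ≤ S' := by
        by_contra hc
        push Not at hc
        have h3 : S' * (4 * (4 * k) * (5 * k) * (431 / 100))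
            ≤ (1 / 100) * (4 * (4 * k) * (5 * k) * (431 / 100)) :=
          mul_le_mul_of_nonneg_right hc.le (by positivity)
        nlinarith
      have hm'2 : 1 / 100 ≤ m' := le_trans (le_min (by norm_num) hS'low) hm'S
      exact ⟨by linarith, by linarith⟩
    · -- the middle range
      have hmS : m = S := by
        rw [hm, max_eq_left (by linarith : k ≤ S), min_eq_right (by linarith)]
      rw [hmS] at hTm hTk hTor
      have hS2 : 0 < S ^ 2 := by positivity
      have hTk' : k ^ 2 ≤ T * S ^ 2 := by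
        have h1 : (k / S) ^ 2 * S ^ 2 = k ^ 2 := by field_simp
        nlinarith [mul_le_mul_of_nonneg_right hTk hS2.le]
      have hPlo : 3 / 4 * S ≤ P := by linarith
      have hPhi : P ≤ 5 / 4 * S := by linarith
      have hlo : 11 * S ^ 2 ≤ 4 * S * P * Q := by
        have h1 : 3 * S ^ 2 ≤ 4 * S * P := by nlinarith
        have h2 : 3 * S ^ 2 * (369 / 100) ≤ 4 * S * P * Q :=
          mul_le_mul h1 hQlo (by norm_num) (by positivity)
        nlinarith
      have hhi : 4 * S * P * Q ≤ 22 * S ^ 2 := by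
        have h1 : 4 * S * P ≤ 5 * S ^ 2 := by nlinarith
        have h2 : 4 * S * P * Q ≤ 5 * S ^ 2 * (431 / 100) :=
          mul_le_mul h1 hQhi hQ.le (by positivity)
        nlinarith
      have hak : k * (4 + k) ≤ 5 * k := by nlinarith
      refine ⟨?_, ?_⟩
      · rcases le_or_gt (10 * k) (S ^ 2) with h1 | h1
        · -- `T = S ^ 2`
          have hN4 : S ^ 2 / 2 ≤ N := by nlinarith
          have h2 : S ^ 2 * (S ^ 2 / 4) ≤ S ^ 2 * (22 * S') := by
            have h3 : (S ^ 2 / 2) ^ 2 ≤ N ^ 2 := pow_le_pow_left₀ (by positivity) hN4 2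
            have h4 := mul_le_mul_of_nonneg_left hhi hS'
            nlinarith
          have h3 := le_of_mul_le_mul_left h2 hS2
          have hTS : T = S ^ 2 := by
            rcases hTor with h | h
            · exact h
            · have h4 : (k / S) ^ 2 * S ^ 2 = k ^ 2 := by field_simp
              have h5 : T * S ^ 2 = k ^ 2 := by rw [h]; exact h4
              have h6 : S ^ 2 * S ^ 2 ≤ T * S ^ 2 := mul_le_mul_of_nonneg_right hTm hS2.le
              nlinarith
          have h4 : min 1 S' ≤ m' := hm'S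
          rcases le_total 1 S' with h5 | h5
          · rw [min_eq_left h5] at h4
            linarith
          · rw [min_eq_right h5] at h4
            linarith
        · rcases le_or_gt (S ^ 2) (2 * k) with h2 | h2
          · -- `T ~ (k / S) ^ 2`
            have hN4 : k ≤ N := by nlinarith
            have hTle : T * S ^ 2 ≤ 4 * k ^ 2 := by
              rcases hTor with h | h
              · rw [h]
                nlinarith
              · have h4 : (k / S) ^ 2 * S ^ 2 = k ^ 2 := by field_simp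
                rw [h, h4]
                nlinarith
            have h3 : k ^ 2 ≤ S' * (22 * S ^ 2) := by
              have h5 : k ^ 2 ≤ N ^ 2 := pow_le_pow_left₀ hk.le hN4 2
              have h4 := mul_le_mul_of_nonneg_left hhi hS'
              linarith
            have h6 : S ^ 2 * T ≤ S ^ 2 * (88 * S') := by nlinarith
            have h7 := le_of_mul_le_mul_left h6 hS2
            rcases le_total 1 S' with h5 | h5
            · rw [min_eq_left h5] at hm'S
              linarith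
            · rw [min_eq_right h5] at hm'S
              linarith
          · -- everything is comparable with `k`
            have hTle : T ≤ 10 * k := by
              rcases hTor with h | h
              · rw [h]; exact h1.le
              · have h4 : (k / S) ^ 2 * S ^ 2 = k ^ 2 := by field_simp
                have h5 : T * S ^ 2 = k ^ 2 := by rw [h]; exact h4
                by_contra hc
                push Not at hc
                have h6 : 10 * k * (2 * k) ≤ T * S ^ 2 :=
                  mul_le_mul hc.le h2.le (by positivity) (by linarith)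
                nlinarith
            linarith
      · -- upper bound
        have h1 : S' * (11 * S ^ 2) ≤ (S ^ 2 + 5 * k) ^ 2 := by
          have h2 := mul_le_mul_of_nonneg_left hlo hS'
          have h3 : N ^ 2 ≤ (S ^ 2 + 5 * k) ^ 2 := pow_le_pow_left₀ hN0 (by linarith) 2
          linarith
        have h2 : S ^ 2 * (11 * S') ≤ S ^ 2 * (52 * T) := by
          have h3 : (S ^ 2 + 5 * k) ^ 2 ≤ 2 * (S ^ 2 * S ^ 2) + 50 * k ^ 2 := by
            nlinarith [sq_nonneg (S ^ 2 - 5 * k)]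
          have h4 : S ^ 2 * S ^ 2 ≤ S ^ 2 * T := mul_le_mul_of_nonneg_left hTm hS2.le
          nlinarith
        have h3 := le_of_mul_le_mul_left h2 hS2
        have h4 : m' ≤ max S' k := by rw [hm']; exact min_le_right _ _
        rcases le_total S' k with h5 | h5
        · rw [max_eq_right h5] at h4
          linarith
        · rw [max_eq_left h5] at h4
          linarith

theorem st_CFD : ST_CFD := by
  refine ⟨Real.log 1000 / 2, fun κ s s' hκ hκ1 hs hsκ hs4 heq => ?_⟩
  set k := ‖κ‖ with hk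
  have hkpos : 0 < k := norm_pos_iff.mpr hκ
  set m := min 1 (mk κ s) with hm
  set m' := min 1 (mk κ s') with hm'
  have hmpos : 0 < m := cfd_min_pos hκ s
  have hm'pos : 0 < m' := cfd_min_pos hκ s'
  have hkm : 0 < k / m := div_pos hkpos hmpos
  have hmax : 0 < max m (k / m) := lt_max_of_lt_left hmpos
  have hcore := cfd_core (S := ‖s‖) (S' := ‖s'‖) (P := ‖s + κ‖) (Q := ‖s + 4 + κ‖)
    (N := ‖s ^ 2 - κ * (4 + κ)‖) (k := k) (m := m) (T := (max m (k / m)) ^ 2) (m' := m')
    (norm_pos_iff.mpr hs) (norm_nonneg _) hkpos hκ1 (norm_pos_iff.mpr hsκ)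
    (norm_pos_iff.mpr hs4) (norm_add_le _ _) ?_ ?_ ?_ (norm_nonneg _) ?_ ?_ ?_ ?_ rfl rfl rfl
  · obtain ⟨h1, h2⟩ := hcore
    have e1 : min (2 * fk κ s) (-Real.log k - 2 * fk κ s) = -Real.log (max m (k / m)) := by
      rw [cfd_fk hκ s, ← hm]
      have e2 : 2 * (-Real.log m / 2) = -Real.log m := by ring
      have e3 : -Real.log k - 2 * (-Real.log m / 2) = -Real.log (k / m) := by
        rw [Real.log_div hkpos.ne' hmpos.ne']
        ring
      rw [e3, e2]
      rcases le_total m (k / m) with h | h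
      · rw [max_eq_right h, min_eq_right]
        exact neg_le_neg (Real.log_le_log hmpos h)
      · rw [max_eq_left h, min_eq_left]
        exact neg_le_neg (Real.log_le_log hkm h)
    rw [e1, cfd_fk hκ s', ← hm']
    have h3 := Real.log_le_log (pow_pos hmax 2) h1
    have h4 := Real.log_le_log hm'pos h2
    rw [Real.log_mul (by norm_num) hm'pos.ne', Real.log_pow] at h3
    rw [Real.log_mul (by norm_num) (pow_pos hmax 2).ne', Real.log_pow] at h4
    push_cast at h3 h4
    rw [abs_le]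
    constructor <;> linarith
  · have h1 := norm_sub_norm_le s (-κ)
    rw [norm_neg, sub_neg_eq_add] at h1
    exact h1
  · have h1 := norm_add_le (s + 4) κ
    have h2 := norm_add_le s 4
    have h3 : ‖(4 : ℂ)‖ = 4 := by norm_num
    rw [h3] at h2
    linarith
  · have h1 : (4 : ℂ) = (s + 4 + κ) + (-κ) + (-s) := by ring
    have h2 : ‖(4 : ℂ)‖ = 4 := by norm_num
    have h3 := norm_add_le ((s + 4 + κ) + (-κ)) (-s)
    have h4 := norm_add_le (s + 4 + κ) (-κ)
    rw [← h1, h2, norm_neg] at h3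
    rw [norm_neg] at h4
    linarith
  · have h1 := norm_sub_le (s ^ 2) (κ * (4 + κ))
    rw [norm_pow, norm_mul] at h1
    have h2 := norm_add_le 4 κ
    have h3 : ‖(4 : ℂ)‖ = 4 := by norm_num
    rw [h3] at h2
    have h4 : ‖κ‖ * ‖4 + κ‖ ≤ k * (4 + k) := mul_le_mul_of_nonneg_left h2 hkpos.le
    linarith
  · have h1 := norm_sub_norm_le (s ^ 2) (κ * (4 + κ))
    rw [norm_pow, norm_mul] at h1
    have h2 := norm_add_le 4 κ
    have h3 : ‖(4 : ℂ)‖ = 4 := by norm_num
    rw [h3] at h2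
    have h4 : ‖κ‖ * ‖4 + κ‖ ≤ k * (4 + k) := mul_le_mul_of_nonneg_left h2 hkpos.le
    linarith
  · have h1 := norm_sub_norm_le (κ * (4 + κ)) (s ^ 2)
    rw [norm_pow, norm_mul, norm_sub_rev] at h1
    have h2 := norm_sub_norm_le 4 (-κ)
    have h3 : ‖(4 : ℂ)‖ = 4 := by norm_num
    rw [h3, norm_neg, sub_neg_eq_add] at h2
    have h4 : k * (4 - k) ≤ ‖κ‖ * ‖4 + κ‖ := mul_le_mul_of_nonneg_left h2 hkpos.le
    linarith
  · have h1 := congrArg norm heq
    rw [norm_mul, norm_mul, norm_mul, norm_mul, norm_pow] at h1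
    have h3 : ‖(4 : ℂ)‖ = 4 := by norm_num
    rw [h3] at h1
    exact h1

theorem st_CP : ST_CP := by
  refine ⟨Real.log 100, fun κ Z Y hκ hκ1 hZ hY heq => ?_⟩
  set s : ℂ := (Y / Z) ^ 2 with hs
  set k := ‖κ‖ with hk
  have hkpos : 0 < k := norm_pos_iff.mpr hκ
  have hZ0 : 0 < ‖Z‖ := norm_pos_iff.mpr hZ
  have hY0 : 0 < ‖Y‖ := norm_pos_iff.mpr hY
  set u : ℂ := s + κ with hu
  have hsZ : s * Z ^ 2 = Y ^ 2 := by rw [hs]; field_simp
  have huZ : u * Z = (Z - 1) ^ 2 := by
    have h1 : u * Z * Z = (Z - 1) ^ 2 * Z := by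
      rw [hu]
      linear_combination hsZ + heq
    exact mul_right_cancel₀ hZ h1
  have hu4 : (u + 4) * Z = (Z + 1) ^ 2 := by linear_combination huZ
  have hn1 : ‖Z ^ 2 - 1‖ ^ 2 = ‖Z‖ ^ 2 * (‖u‖ * ‖u + 4‖) := by
    have h1 : (Z ^ 2 - 1) ^ 2 = Z ^ 2 * (u * (u + 4)) := by
      have h2 : Z ^ 2 * (u * (u + 4)) = (u * Z) * ((u + 4) * Z) := by ring
      rw [h2, huZ, hu4]
      ring
    rw [← norm_pow, h1, norm_mul, norm_mul, norm_pow]
  have hn2 : ‖4 * Y ^ 2‖ = ‖Z‖ ^ 2 * (4 * ‖s‖) := by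
    rw [← hsZ, norm_mul, norm_mul, norm_pow Z 2]
    have h3 : ‖(4 : ℂ)‖ = 4 := by norm_num
    rw [h3]
    ring
  set mm := min 1 (mk κ s) with hmm
  have hmm0 : 0 < mm := cfd_min_pos hκ s
  have hmm1 : mm ≤ 1 := min_le_left _ _
  have hmm2 : mm ≤ max ‖s‖ k := min_le_right _ _
  -- size of `Z`
  have hZu : (max ‖Z‖ 1) ^ 4 ≤ ‖Z‖ ^ 2 * (‖u‖ + 3) ^ 2 := by
    have h1 : Z = u + 2 + -(1 / Z) := by
      have h2 : Z * Z = (u + 2 + -(1 / Z)) * Z := by
        field_simp
        linear_combination -huZ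
      exact mul_right_cancel₀ hZ h2
    have hinv : ‖-(1 / Z)‖ = 1 / ‖Z‖ := by rw [norm_neg, norm_div, norm_one]
    have h2' : ‖(2 : ℂ)‖ = 2 := by norm_num
    rcases le_total 1 ‖Z‖ with h | h
    · rw [max_eq_left h]
      have h3 : ‖Z‖ ≤ ‖u‖ + 3 := by
        have h4 := norm_add_le (u + 2) (-(1 / Z))
        have h5 := norm_add_le u 2
        rw [← h1, hinv] at h4
        rw [h2'] at h5
        have h6 : 1 / ‖Z‖ ≤ 1 := by rw [div_le_one hZ0]; exact h
        linarith
      have h4 : ‖Z‖ ^ 2 ≤ (‖u‖ + 3) ^ 2 := pow_le_pow_left₀ hZ0.le h3 2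
      calc ‖Z‖ ^ 4 = ‖Z‖ ^ 2 * ‖Z‖ ^ 2 := by ring
        _ ≤ _ := mul_le_mul_of_nonneg_left h4 (by positivity)
    · rw [max_eq_right h]
      have h3 : 1 / ‖Z‖ ≤ ‖u‖ + 3 := by
        have h7 : -(1 / Z) = Z + -(u + 2) := by linear_combination -h1
        have h4 := norm_add_le Z (-(u + 2))
        rw [← h7, hinv, norm_neg] at h4
        have h5 := norm_add_le u 2
        rw [h2'] at h5
        linarith
      have h4 : 1 ≤ ‖Z‖ * (‖u‖ + 3) := by
        rw [div_le_iff₀ hZ0] at h3
        linarith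
      have h5 : (1 : ℝ) ^ 2 ≤ (‖Z‖ * (‖u‖ + 3)) ^ 2 := pow_le_pow_left₀ zero_le_one h4 2
      rw [mul_pow] at h5
      linarith
  -- the main inequality
  have hmain : (‖u‖ + 3) ^ 2 * mm ≤ 100 * max (‖u‖ * ‖u + 4‖) (4 * ‖s‖) := by
    have hu0 : 0 ≤ ‖u‖ := norm_nonneg _
    have hs0 : 0 ≤ ‖s‖ := norm_nonneg _
    have h4' : ‖(4 : ℂ)‖ = 4 := by norm_num
    rcases le_or_gt 8 ‖u‖ with h | h
    · have h1 : ‖u‖ - 4 ≤ ‖u + 4‖ := by
        have h2 := norm_sub_norm_le u (-4)
        rw [norm_neg, h4', sub_neg_eq_add] at h2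
        exact h2
      have h2 : ‖u‖ ^ 2 / 2 ≤ ‖u‖ * ‖u + 4‖ := by nlinarith
      have h3 : (‖u‖ + 3) ^ 2 * mm ≤ (‖u‖ + 3) ^ 2 :=
        mul_le_of_le_one_right (by positivity) hmm1
      have h5 : (‖u‖ + 3) ^ 2 ≤ 50 * ‖u‖ ^ 2 := by nlinarith
      have h6 := le_max_left (‖u‖ * ‖u + 4‖) (4 * ‖s‖)
      linarith
    · have h1 : (‖u‖ + 3) ^ 2 ≤ 121 := by nlinarith
      have h2 : (‖u‖ + 3) ^ 2 * mm ≤ 121 * mm := mul_le_mul_of_nonneg_right h1 hmm0.le
      rcases le_or_gt (k / 2) ‖s‖ with h3 | h3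
      · have h4 : max ‖s‖ k ≤ 2 * ‖s‖ := max_le (by linarith) (by linarith)
        have h6 := le_max_right (‖u‖ * ‖u + 4‖) (4 * ‖s‖)
        linarith
      · have h4 : k / 2 ≤ ‖u‖ := by
          have h5 := norm_sub_norm_le κ (-s)
          rw [norm_neg, sub_neg_eq_add, add_comm κ s] at h5
          linarith
        have h5 : ‖u‖ ≤ 3 / 200 := by
          have h6 := norm_add_le s κ
          linarith
        have h7 : 39 / 10 ≤ ‖u + 4‖ := by
          have h8 := norm_sub_norm_le 4 (-u)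
          rw [norm_neg, h4', sub_neg_eq_add, add_comm 4 u] at h8
          linarith
        have h8 : max ‖s‖ k ≤ k := max_le (by linarith) le_rfl
        have h9 : k / 2 * (39 / 10) ≤ ‖u‖ * ‖u + 4‖ :=
          mul_le_mul h4 h7 (by norm_num) hu0
        have h6 := le_max_left (‖u‖ * ‖u + 4‖) (4 * ‖s‖)
        linarith
  have hmaxZ : 0 < max ‖Z‖ 1 := lt_max_of_lt_right one_pos
  have hfin : (max ‖Z‖ 1) ^ 4 * mm ≤ 100 * max (‖Z ^ 2 - 1‖ ^ 2) ‖4 * Y ^ 2‖ := by
    rw [hn1, hn2, ← mul_max_of_nonneg _ _ (by positivity : 0 ≤ ‖Z‖ ^ 2)]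
    have h1 := mul_le_mul_of_nonneg_right hZu hmm0.le
    have h2 := mul_le_mul_of_nonneg_left hmain (by positivity : 0 ≤ ‖Z‖ ^ 2)
    linarith
  have hpos : 0 < max (‖Z ^ 2 - 1‖ ^ 2) ‖4 * Y ^ 2‖ := by
    refine lt_max_of_lt_right (norm_pos_iff.mpr ?_)
    exact mul_ne_zero (by norm_num) (pow_ne_zero 2 hY)
  have hlog := Real.log_le_log (mul_pos (pow_pos hmaxZ 4) hmm0) hfin
  rw [Real.log_mul (pow_pos hmaxZ 4).ne' hmm0.ne', Real.log_mul (by norm_num) hpos.ne',
    Real.log_pow] at hlog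
  push_cast at hlog
  rw [cfd_fk hκ s, ← hmm]
  linarith

end Pool.Agent.Helper42.LK
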