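import Pool.Agent.Helper42.LK.Defs

/-!
# LK project: normal form for large `j` (CR)
-/

namespace Pool.Agent.Helper42.LK

open Pool.Agent.Helper42.LS

lemma cr_root (A B : ℂ) : ∃ e : ℂ, e ^ 3 + A * e + B = 0 := by
  have hdeg : (Polynomial.X ^ 3 + Polynomial.C A * Polynomial.X + Polynomial.C B :
      Polynomial ℂ).degree = 3 := by
    compute_degree!
  obtain ⟨e, he⟩ := IsAlgClosed.exists_root
    (Polynomial.X ^ 3 + Polynomial.C A * Polynomial.X + Polynomial.C B : Polynomial ℂ)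
    (by rw [hdeg]; norm_num)
  refine ⟨e, ?_⟩
  simpa [Polynomial.IsRoot.def] using he

/-- A root `e` of the cubic with `|A| ≤ |3 e ^ 2 + A|`. -/
lemma cr_bigroot (A B : ℂ) : ∃ e : ℂ, e ^ 3 + A * e + B = 0 ∧ ‖A‖ ≤ ‖3 * e ^ 2 + A‖ := by
  obtain ⟨e₁, he₁⟩ := cr_root A B
  obtain ⟨s, hs⟩ := IsAlgClosed.exists_pow_nat_eq (-3 * e₁ ^ 2 - 4 * A) (n := 2) (by norm_num)
  have h2 : ((-e₁ + s) / 2) ^ 3 + A * ((-e₁ + s) / 2) + B = 0 := by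
    linear_combination he₁ + ((-3 * e₁ + s) / 8) * hs
  have h3 : ((-e₁ - s) / 2) ^ 3 + A * ((-e₁ - s) / 2) + B = 0 := by
    linear_combination he₁ + ((-3 * e₁ - s) / 8) * hs
  have hsum : (3 * e₁ ^ 2 + A) + (3 * ((-e₁ + s) / 2) ^ 2 + A) + (3 * ((-e₁ - s) / 2) ^ 2 + A)
      = -3 * A := by
    linear_combination (3 / 2) * hs
  by_contra hc
  push Not at hc
  have b1 := hc _ he₁
  have b2 := hc _ h2
  have b3 := hc _ h3
  have e1 : ‖(-3 : ℂ) * A‖ = 3 * ‖A‖ := by rw [norm_mul]; norm_num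
  have e2 := norm_add_le ((3 * e₁ ^ 2 + A) + (3 * ((-e₁ + s) / 2) ^ 2 + A))
    (3 * ((-e₁ - s) / 2) ^ 2 + A)
  have e3 := norm_add_le (3 * e₁ ^ 2 + A) (3 * ((-e₁ + s) / 2) ^ 2 + A)
  rw [hsum, e1] at e2
  linarith

theorem st_CR : ST_CR := by
  refine ⟨345600, by norm_num, fun A B hD hJ => ?_⟩
  obtain ⟨e, he, heA⟩ := cr_bigroot A B
  have hA : A ≠ 0 := by
    rintro rfl
    simp only [ne_eq, OfNat.ofNat_ne_zero, not_false_eq_true, zero_pow, mul_zero, norm_zero] at hJ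
    have := norm_nonneg (dsc 0 B)
    linarith
  have hA0 : 0 < ‖A‖ := norm_pos_iff.mpr hA
  -- the two signs of `μ`
  have main : ∀ μ : ℂ, μ ^ 2 = 3 * e ^ 2 + A → ‖-3 * e / μ - 2‖ ≤ ‖4 + (-3 * e / μ - 2)‖ →
      ∃ e μ κ : ℂ, μ ≠ 0 ∧ e ^ 3 + A * e + B = 0 ∧ μ ^ 2 = 3 * e ^ 2 + A ∧ ‖κ‖ ≤ 1 / 100 ∧ κ ≠ 0 ∧
        3 * e = -(2 + κ) * μ ∧ dsc A B = -(κ * (4 + κ)) * μ ^ 6 := by
    intro μ hμ hle
    have hμ0 : μ ≠ 0 := by
      rintro rfl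
      have : ‖A‖ ≤ 0 := by
        rw [← hμ] at heA
        simpa using heA
      linarith
    have h3e : 3 * e = -(2 + (-3 * e / μ - 2)) * μ := by
      field_simp
      ring
    set κ : ℂ := -3 * e / μ - 2 with hκ
    have hdsc : dsc A B = -(κ * (4 + κ)) * μ ^ 6 := by
      have h1 : 9 * e ^ 2 = (2 + κ) ^ 2 * μ ^ 2 := by
        linear_combination (3 * e - (2 + κ) * μ) * h3e
      have h2 : -(κ * (4 + κ)) * μ ^ 6 = (4 * μ ^ 2 - 9 * e ^ 2) * (μ ^ 2) ^ 2 := by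
        rw [h1]; ring
      rw [h2, hμ]
      have hB : B = -(e ^ 3 + A * e) := by linear_combination he
      rw [hB]
      unfold dsc
      ring
    have hκ0 : κ ≠ 0 := by
      intro h0
      apply hD
      rw [hdsc, h0]
      ring
    refine ⟨e, μ, κ, hμ0, he, hμ, ?_, hκ0, h3e, hdsc⟩
    have hμA : ‖A‖ ≤ ‖μ‖ ^ 2 := by
      rw [← norm_pow, hμ]; exact heA
    have hn1 : ‖dsc A B‖ = ‖κ‖ * ‖4 + κ‖ * ‖μ‖ ^ 6 := by
      rw [hdsc, norm_mul, norm_neg, norm_mul, norm_pow]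
    have hn2 : ‖6912 * A ^ 3‖ = 6912 * ‖A‖ ^ 3 := by
      rw [norm_mul, norm_pow]
      norm_num
    have h4 : (2 : ℝ) ≤ ‖4 + κ‖ := by
      have h5 : (4 : ℝ) ≤ ‖4 + κ‖ + ‖κ‖ := by
        have h6 := norm_sub_le (4 + κ) κ
        have h7 : (4 + κ) - κ = 4 := by ring
        rw [h7] at h6
        have h8 : ‖(4 : ℂ)‖ = 4 := by norm_num
        linarith
      linarith
    have h6 : ‖A‖ ^ 3 ≤ ‖μ‖ ^ 6 := by
      calc ‖A‖ ^ 3 ≤ (‖μ‖ ^ 2) ^ 3 := pow_le_pow_left₀ hA0.le hμA 3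
        _ = ‖μ‖ ^ 6 := by ring
    rw [hn1, hn2] at hJ
    have hκn : 0 ≤ ‖κ‖ := norm_nonneg _
    have hμ6 : 0 < ‖μ‖ ^ 6 := pow_pos (norm_pos_iff.mpr hμ0) 6
    by_contra hc
    push Not at hc
    have h7 : 2 * (1 / 100 : ℝ) ≤ ‖κ‖ * ‖4 + κ‖ := by nlinarith
    have h8 : 2 * (1 / 100 : ℝ) * ‖μ‖ ^ 6 ≤ ‖κ‖ * ‖4 + κ‖ * ‖μ‖ ^ 6 :=
      mul_le_mul_of_nonneg_right h7 hμ6.le
    linarith
  obtain ⟨μ, hμ⟩ := IsAlgClosed.exists_pow_nat_eq (3 * e ^ 2 + A) (n := 2) (by norm_num)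
  rcases le_total ‖-3 * e / μ - 2‖ ‖4 + (-3 * e / μ - 2)‖ with h | h
  · exact main μ hμ h
  · refine main (-μ) (by rw [neg_sq, hμ]) ?_
    have e1 : -3 * e / -μ - 2 = -(4 + (-3 * e / μ - 2)) := by
      rw [div_neg]
      ring
    have e2 : 4 + (-3 * e / -μ - 2) = -(-3 * e / μ - 2) := by
      rw [div_neg]
      ring
    rw [e2, e1, norm_neg, norm_neg]
    exact h

end Pool.Agent.Helper42.LK
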