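import Pool.Agent.Helper42.LK.Defs

/-!
# LK project: local discriminants and the height of `j` (KDF)
-/

namespace Pool.Agent.Helper42.LK

open Pool.Agent.Helper42.LS NumberField

/-- The local statements. -/
lemma kdf_local (hMN : ST_KMN) {F : Type} [Field F] [CharZero F] (v : DV F) {A B : F}
    (hD : dsc A B ≠ 0) :
    0 ≤ dl v.nr A B ∧ (dl v.nr A B ≠ 0 → Real.log v.q ≤ dl v.nr A B) ∧
    Real.log (max (v.nr (6912 * A ^ 3 / dsc A B)) 1) ≤ dl v.nr A B ∧
    (IsMul v.nr A B → 0 < dl v.nr A B) ∧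
    (v.nr A ≤ 1 → v.nr B ≤ 1 → v.nr (dsc A B) = 1 → dl v.nr A B = 0) := by
  obtain ⟨u, hu, hA, hB, -, hdl, hmax⟩ := hMN F v A B hD
  have hdsc : dsc (u ^ 4 * A) (u ^ 6 * B) = u ^ 12 * dsc A B := by
    unfold dsc; ring
  have hD0 : dsc (u ^ 4 * A) (u ^ 6 * B) ≠ 0 := by
    rw [hdsc]; exact mul_ne_zero (pow_ne_zero _ hu) hD
  set A' := u ^ 4 * A with hA'
  set B' := u ^ 6 * B with hB'
  have hD1 : v.nr (dsc A' B') ≤ 1 := by
    unfold dsc
    refine (v.nr_add_le _ _).trans (max_le ?_ ?_)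
    · rw [v.nr_mul, v.nr_pow]
      exact mul_le_one₀ (v.nr_ofNat 4) (pow_nonneg (v.nr_nonneg _) _)
        (pow_le_one₀ (v.nr_nonneg _) hA)
    · rw [v.nr_mul, v.nr_pow]
      exact mul_le_one₀ (v.nr_ofNat 27) (pow_nonneg (v.nr_nonneg _) _)
        (pow_le_one₀ (v.nr_nonneg _) hB)
  have hDpos := v.nr_pos hD0
  have hdlord : dl v.nr A B = v.ord (dsc A' B') * Real.log v.q := by
    rw [hdl, v.log_nr hD0]
    ring
  have h0 : 0 ≤ dl v.nr A B := by
    rw [hdl]
    have := Real.log_nonpos hDpos.le hD1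
    linarith
  refine ⟨h0, ?_, ?_, ?_, ?_⟩
  · intro hne
    have hord : 0 ≤ v.ord (dsc A' B') := (v.nr_le_one_iff hD0).1 hD1
    have hord1 : v.ord (dsc A' B') ≠ 0 := by
      intro h
      apply hne
      rw [hdlord, h]
      simp
    have hord2 : (1 : ℤ) ≤ v.ord (dsc A' B') := by omega
    have hord3 : (1 : ℝ) ≤ (v.ord (dsc A' B') : ℝ) := by exact_mod_cast hord2
    rw [hdlord]
    exact le_mul_of_one_le_left v.log_q_pos.le hord3
  · have hj : 6912 * A ^ 3 / dsc A B = 6912 * A' ^ 3 / dsc A' B' := by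
      rw [hdsc, hA', mul_pow, ← pow_mul]
      have e : (6912 : F) * (u ^ (4 * 3) * A ^ 3) = u ^ 12 * (6912 * A ^ 3) := by ring
      rw [e, mul_div_mul_left _ _ (pow_ne_zero 12 hu)]
    have h1 : max (v.nr (6912 * A ^ 3 / dsc A B)) 1 ≤ (v.nr (dsc A' B'))⁻¹ := by
      refine max_le ?_ ((one_le_inv₀ hDpos).2 hD1)
      rw [hj, v.nr_div, div_eq_mul_inv]
      refine mul_le_of_le_one_left (inv_nonneg.2 hDpos.le) ?_
      rw [v.nr_mul, v.nr_pow]
      exact mul_le_one₀ (v.nr_ofNat 6912) (pow_nonneg (v.nr_nonneg _) _)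
        (pow_le_one₀ (v.nr_nonneg _) hA)
    have h2 := Real.log_le_log (lt_max_of_lt_right one_pos) h1
    rwa [Real.log_inv, ← hdl] at h2
  · rintro ⟨u', h1, h2, h3⟩
    have hAne : A ≠ 0 := by
      rintro rfl
      rw [mul_zero, v.nr_zero] at h1
      exact zero_ne_one h1
    have hu' : u' ≠ 0 := by
      rintro rfl
      have : ((0 : F) ^ 4 * A) = 0 := by ring
      rw [this, v.nr_zero] at h1
      exact zero_ne_one h1
    have h4 : v.nr u' ≤ v.nr u := hmax u' hu' h1.le h2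
    have h5 : v.nr u ≤ v.nr u' := by
      by_contra hc
      push Not at hc
      have h6 : v.nr u' ^ 4 < v.nr u ^ 4 := pow_lt_pow_left₀ hc (v.nr_nonneg _) (by norm_num)
      rw [v.nr_mul, v.nr_pow] at h1 hA
      have h7 : v.nr u' ^ 4 * v.nr A < v.nr u ^ 4 * v.nr A :=
        mul_lt_mul_of_pos_right h6 (v.nr_pos hAne)
      linarith
    have h8 : v.nr u = v.nr u' := le_antisymm h5 h4
    have h9 : v.nr (dsc A' B') < 1 := by
      have h3' : v.nr (u' ^ 12 * dsc A B) < 1 := h3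
      rw [hdsc, v.nr_mul, v.nr_pow, h8]
      rwa [v.nr_mul, v.nr_pow] at h3'
    rw [hdl]
    have := Real.log_neg hDpos h9
    linarith
  · intro hA1 hB1 hD2
    have h1 : v.nr (1 : F) ≤ v.nr u := hmax 1 one_ne_zero (by simpa using hA1) (by simpa using hB1)
    rw [v.nr_one] at h1
    have h2 : v.nr (dsc A' B') = v.nr u ^ 12 := by
      rw [hdsc, v.nr_mul, v.nr_pow, hD2, mul_one]
    have h3 : v.nr u ^ 12 = 1 := by
      apply le_antisymm
      · rw [← h2]; exact hD1
      · exact one_le_pow₀ h1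
    rw [hdl, h2, h3, Real.log_one, neg_zero]

lemma kdf_ne_one {K : Type} [Field K] [NumberField K] {x : K} (hx : x ≠ 0) :
    {v : FinitePlace K | v x ≠ 1}.Finite := FinitePlace.hasFiniteMulSupport hx

lemma kdf_gt_one {K : Type} [Field K] [NumberField K] (x : K) :
    {v : FinitePlace K | ¬ v x ≤ 1}.Finite := by
  by_cases hx : x = 0
  · subst hx
    refine Set.Finite.subset Set.finite_empty fun v hv => hv ?_
    rw [map_zero]
    exact zero_le_one
  · exact (kdf_ne_one hx).subset fun v hv h => hv h.le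

theorem st_KDF (hFP : ST_KFP) (hMN : ST_KMN) : ST_KDF := by
  intro K _ _ A B hD
  have hfin : {v : FinitePlace K | ¬ (v 2 = 1 ∧ v 3 = 1 ∧ v A ≤ 1 ∧ v B ≤ 1 ∧
      v (dsc A B) = 1)}.Finite := by
    refine (((((kdf_ne_one (K := K) (x := 2) two_ne_zero).union
      (kdf_ne_one (K := K) (x := 3) three_ne_zero)).union (kdf_gt_one A)).union
      (kdf_gt_one B)).union (kdf_ne_one hD)).subset ?_
    intro v hv
    simp only [Set.mem_union, Set.mem_ofPred_eq] at hv ⊢
    by_contra hc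
    push Not at hc
    apply hv
    obtain ⟨⟨⟨⟨h1, h2⟩, h3⟩, h4⟩, h5⟩ := hc
    exact ⟨h1, h2, h3, h4, h5⟩
  have hloc : ∀ v : FinitePlace K, 0 ≤ dl (fun x : K => v x) A B ∧
    (dl (fun x : K => v x) A B ≠ 0 → lq v ≤ dl (fun x : K => v x) A B) ∧
    Real.log (max (v (6912 * A ^ 3 / dsc A B)) 1) ≤ dl (fun x : K => v x) A B ∧
    (IsMul (fun x : K => v x) A B → 0 < dl (fun x : K => v x) A B) ∧
    (v A ≤ 1 → v B ≤ 1 → v (dsc A B) = 1 → dl (fun x : K => v x) A B = 0) := by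
    intro v
    obtain ⟨V, hV, hq⟩ := hFP K v
    have hVf : V.nr = fun x : K => v x := funext hV
    have h := kdf_local hMN V hD
    rw [hVf, hq] at h
    exact h
  have hmulfin : {v : FinitePlace K | IsMul (fun x : K => v x) A B}.Finite := by
    refine hfin.subset fun v hv hgood => ?_
    have h1 := (hloc v).2.2.2.1 hv
    have h2 := (hloc v).2.2.2.2 hgood.2.2.1 hgood.2.2.2.1 hgood.2.2.2.2
    rw [h2] at h1
    exact lt_irrefl _ h1
  have hj : 6912 * A ^ 3 / (4 * A ^ 3 + 27 * B ^ 2) = 6912 * A ^ 3 / dsc A B := rfl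
  have hH := NumberField.logHeight₁_eq (6912 * A ^ 3 / dsc A B)
  have hpl : ∀ x : ℝ, Real.posLog x = max 0 (Real.log x) := fun x => rfl
  have hfs : 0 ≤ ∑ᶠ v : FinitePlace K, Real.posLog (v (6912 * A ^ 3 / dsc A B)) :=
    finsum_nonneg fun v => Real.posLog_nonneg
  have hsmall : ∀ v : FinitePlace K, Real.posLog (v (6912 * A ^ 3 / dsc A B))
      ≤ dl (fun x : K => v x) A B := by
    intro v
    rw [hpl]
    refine max_le (hloc v).1 (le_trans ?_ (hloc v).2.2.1)
    by_cases h0 : v (6912 * A ^ 3 / dsc A B) = 0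
    · rw [h0, Real.log_zero]
      exact Real.log_nonneg (le_max_right _ _)
    · have h1 : 0 ≤ v (6912 * A ^ 3 / dsc A B) := apply_nonneg v _
      exact Real.log_le_log (lt_of_le_of_ne h1 (Ne.symm h0)) (le_max_left _ _)
  have hsup : (Function.support fun v : FinitePlace K => dl (fun x : K => v x) A B).Finite := by
    refine hfin.subset fun v hv hgood => hv ?_
    exact (hloc v).2.2.2.2 hgood.2.2.1 hgood.2.2.2.1 hgood.2.2.2.2
  have hsup2 : (Function.support fun v : FinitePlace K =>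
      Real.posLog (v (6912 * A ^ 3 / dsc A B))).Finite := by
    refine hsup.subset fun v hv h0 => hv ?_
    have h1 := hsmall v
    have h0' : dl (fun x : K => v x) A B = 0 := h0
    rw [h0'] at h1
    exact le_antisymm h1 Real.posLog_nonneg
  have hle : ∑ᶠ v : FinitePlace K, Real.posLog (v (6912 * A ^ 3 / dsc A B)) ≤ LD A B := by
    unfold LD
    exact finsum_le_finsum' hsup2 hsup hsmall
  refine ⟨hfin, fun v => ⟨(hloc v).1, (hloc v).2.1, (hloc v).2.2.1,
    fun _ _ => (hloc v).2.2.2.1, fun _ _ => (hloc v).2.2.2.2⟩, hmulfin, ?_, ?_⟩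
  · unfold HK
    rw [hj, hH]
    simp only [hpl] at hfs ⊢
    linarith
  · unfold HK
    rw [hj, hH]
    simp only [hpl] at hle ⊢
    linarith

end Pool.Agent.Helper42.LK
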