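import Pool.Agent.Helper42.LK.Defs

/-!
# LK project: good places (KGO) and rescaling of sequences (KSC)
-/

namespace Pool.Agent.Helper42.LK

open Pool.Agent.Helper42.LS

/-- Duplication formula. -/
lemma kgo_dbl {F : Type} [Field F] [CharZero F] {A B : F} {x y : ℕ → F}
    (h : GSeq (0 : F) A B x y) {k : ℕ} (hk : 1 ≤ k) :
    x (2 * k) * (4 * cu A B (x k)) = th A B (x k) := by
  have hy := h.yne k hk
  have hc := h.curve k hk
  have hd := h.dblx k hk
  have h2 : (2 : F) ≠ 0 := two_ne_zero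
  have hcu : cu A B (x k) = y k ^ 2 := by rw [hc]; unfold cu; ring
  have e1 : x (2 * k) * (4 * y k ^ 2) = (3 * x k ^ 2 + A) ^ 2 - 8 * x k * y k ^ 2 := by
    rw [hd]
    field_simp
    ring
  rw [hcu, e1, hc]
  unfold th
  ring

theorem st_KGO : ST_KGO := by
  intro F _ _ v h2 A B hA hB hD x y h k hk
  have hy := h.yne k hk
  have hc := h.curve k hk
  have hcu : cu A B (x k) = y k ^ 2 := by rw [hc]; unfold cu; ring
  have hcu0 : cu A B (x k) ≠ 0 := by rw [hcu]; exact pow_ne_zero 2 hy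
  have h40 : (4 * cu A B (x k)) ≠ 0 := mul_ne_zero (by norm_num) hcu0
  have hpos : 0 < v.nr (4 * cu A B (x k)) := v.nr_pos h40
  have h4 : v.nr 4 = 1 := by
    have : (4 : F) = 2 ^ 2 := by norm_num
    rw [this, v.nr_pow, h2, one_pow]
  have h8 : v.nr 8 = 1 := by
    have : (8 : F) = 2 ^ 3 := by norm_num
    rw [this, v.nr_pow, h2, one_pow]
  have hdbl := kgo_dbl h hk
  have e1 : max (v.nr (x (2 * k))) 1 * v.nr (4 * cu A B (x k))
      = max (v.nr (th A B (x k))) (v.nr (4 * cu A B (x k))) := by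
    rw [max_mul_of_nonneg _ _ hpos.le, one_mul, ← v.nr_mul, hdbl]
  have key : (max (v.nr (x k)) 1) ^ 4
      ≤ max (v.nr (th A B (x k))) (v.nr (4 * cu A B (x k))) := by
    rcases le_or_gt (v.nr (x k)) 1 with hx | hx
    · rw [max_eq_right hx, one_pow]
      have hid : dsc A B = (3 * x k ^ 2 + 4 * A) * th A B (x k)
          + (-((3 * x k ^ 3 - 5 * A * x k - 27 * B) * cu A B (x k))) := by
        unfold dsc th cu
        ring
      have h3 : v.nr (3 * x k ^ 2 + 4 * A) ≤ 1 := by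
        refine (v.nr_add_le _ _).trans (max_le ?_ ?_)
        · rw [v.nr_mul, v.nr_pow]
          exact mul_le_one₀ (v.nr_ofNat 3) (pow_nonneg (v.nr_nonneg _) _)
            (pow_le_one₀ (v.nr_nonneg _) hx)
        · rw [v.nr_mul]
          exact mul_le_one₀ (v.nr_ofNat 4) (v.nr_nonneg _) hA
      have h5 : v.nr (3 * x k ^ 3 - 5 * A * x k - 27 * B) ≤ 1 := by
        refine (v.nr_sub_le _ _).trans (max_le ((v.nr_sub_le _ _).trans (max_le ?_ ?_)) ?_)
        · rw [v.nr_mul, v.nr_pow]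
          exact mul_le_one₀ (v.nr_ofNat 3) (pow_nonneg (v.nr_nonneg _) _)
            (pow_le_one₀ (v.nr_nonneg _) hx)
        · rw [v.nr_mul, v.nr_mul]
          exact mul_le_one₀ (mul_le_one₀ (v.nr_ofNat 5) (v.nr_nonneg _) hA) (v.nr_nonneg _) hx
        · rw [v.nr_mul]
          exact mul_le_one₀ (v.nr_ofNat 27) (v.nr_nonneg _) hB
      have h6 : v.nr (dsc A B) ≤ max (v.nr (th A B (x k))) (v.nr (cu A B (x k))) := by
        rw [hid]
        refine (v.nr_add_le _ _).trans (max_le_max ?_ ?_)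
        · rw [v.nr_mul]
          exact mul_le_of_le_one_left (v.nr_nonneg _) h3
        · rw [v.nr_neg, v.nr_mul]
          exact mul_le_of_le_one_left (v.nr_nonneg _) h5
      rw [hD] at h6
      rwa [v.nr_mul 4, h4, one_mul]
    · rw [max_eq_left hx.le]
      refine le_max_of_le_left (le_of_eq ?_)
      have e2 : th A B (x k) = x k ^ 4 + (-(2 * A * x k ^ 2) + (-(8 * B * x k) + A ^ 2)) := by
        unfold th; ring
      have hx2 : v.nr (x k) ^ 2 < v.nr (x k) ^ 4 := pow_lt_pow_right₀ hx (by norm_num)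
      have hx1 : v.nr (x k) < v.nr (x k) ^ 4 := by
        calc v.nr (x k) = v.nr (x k) ^ 1 := (pow_one _).symm
          _ < _ := pow_lt_pow_right₀ hx (by norm_num)
      have hx0 : 1 < v.nr (x k) ^ 4 := one_lt_pow₀ hx (by norm_num)
      rw [e2, v.nr_add_eq_left, v.nr_pow]
      rw [v.nr_pow]
      refine lt_of_le_of_lt (v.nr_add_le _ _) (max_lt ?_
        (lt_of_le_of_lt (v.nr_add_le _ _) (max_lt ?_ ?_)))
      · rw [v.nr_neg, v.nr_mul, v.nr_mul, v.nr_pow, h2, one_mul]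
        exact lt_of_le_of_lt (mul_le_of_le_one_left (pow_nonneg (v.nr_nonneg _) _) hA) hx2
      · rw [v.nr_neg, v.nr_mul, v.nr_mul, h8, one_mul]
        exact lt_of_le_of_lt (mul_le_of_le_one_left (v.nr_nonneg _) hB) hx1
      · rw [v.nr_pow]
        exact lt_of_le_of_lt (pow_le_one₀ (v.nr_nonneg _) hA) hx0
  have hm1 : 0 < max (v.nr (x k)) 1 := lt_max_of_lt_right one_pos
  have hm2 : 0 < max (v.nr (x (2 * k))) 1 := lt_max_of_lt_right one_pos
  rw [← Real.log_mul hm2.ne' hpos.ne', e1]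
  have e3 : 4 * Real.log (max (v.nr (x k)) 1) = Real.log ((max (v.nr (x k)) 1) ^ 4) := by
    rw [Real.log_pow]; norm_num
  rw [e3]
  exact Real.log_le_log (pow_pos hm1 4) key

theorem st_KSC : ST_KSC := by
  intro F _ A B u x y hu h
  have hu2 : u ^ 2 ≠ 0 := pow_ne_zero 2 hu
  have hu3 : u ^ 3 ≠ 0 := pow_ne_zero 3 hu
  have hdiv : ∀ a b : F, (u ^ 3 * a) / (u ^ 2 * b) = u * (a / b) := by
    intro a b
    have : u ^ 3 * a = u ^ 2 * (u * a) := by ring
    rw [this, mul_div_mul_left _ _ hu2, mul_div_assoc]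
  refine ⟨?_, ?_, ?_, ?_, ?_, ?_, ?_, ?_, ?_⟩
  · intro k hk
    have := h.curve k hk
    linear_combination u ^ 6 * this
  · intro k hk
    exact mul_ne_zero hu3 (h.yne k hk)
  · intro k l hl hlk he
    exact h.xne k l hl hlk (mul_left_cancel₀ hu2 he)
  · intro k hk
    have e := h.dblx k hk
    have e1 : (3 * (u ^ 2 * x k) ^ 2 + 2 * 0 * (u ^ 2 * x k) + u ^ 4 * A) / (2 * (u ^ 3 * y k))
        = u * ((3 * x k ^ 2 + 2 * 0 * x k + A) / (2 * y k)) := by
      have e2 : 3 * (u ^ 2 * x k) ^ 2 + 2 * 0 * (u ^ 2 * x k) + u ^ 4 * A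
          = u ^ 3 * (u * (3 * x k ^ 2 + 2 * 0 * x k + A)) := by ring
      have e3 : 2 * (u ^ 3 * y k) = u ^ 3 * (2 * y k) := by ring
      rw [e2, e3, mul_div_mul_left _ _ hu3, mul_div_assoc]
    rw [e1, e]
    ring
  · intro k hk
    have e := h.dbly k hk
    have e1 : (3 * (u ^ 2 * x k) ^ 2 + 2 * 0 * (u ^ 2 * x k) + u ^ 4 * A) / (2 * (u ^ 3 * y k))
        = u * ((3 * x k ^ 2 + 2 * 0 * x k + A) / (2 * y k)) := by
      have e2 : 3 * (u ^ 2 * x k) ^ 2 + 2 * 0 * (u ^ 2 * x k) + u ^ 4 * A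
          = u ^ 3 * (u * (3 * x k ^ 2 + 2 * 0 * x k + A)) := by ring
      have e3 : 2 * (u ^ 3 * y k) = u ^ 3 * (2 * y k) := by ring
      rw [e2, e3, mul_div_mul_left _ _ hu3, mul_div_assoc]
    rw [e1, e]
    ring
  · intro k l hl hlk
    have e := h.addx k l hl hlk
    rw [← mul_sub, ← mul_sub, hdiv, e]
    ring
  · intro k l hl hlk
    have e := h.addy k l hl hlk
    rw [← mul_sub, ← mul_sub (u ^ 2) (x k) (x l), hdiv, e]
    ring
  · intro k l hl hlk
    have e := h.subx k l hl hlk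
    rw [← mul_add, ← mul_sub, hdiv, e]
    ring
  · intro k l hl hlk
    have e := h.suby k l hl hlk
    rw [← mul_add, ← mul_sub (u ^ 2) (x k) (x l), hdiv, e]
    ring

end Pool.Agent.Helper42.LK
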