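import Pool.Agent.Helper42.LK.Defs

/-!
# LK project: minimal equation at a place (KMN)
-/

namespace Pool.Agent.Helper42.LK

open Pool.Agent.Helper42.LS

lemma kmn_scale {F : Type} [Field F] (v : DV F) {A u : F} (hu : u ≠ 0) (n : ℕ) (c : ℤ) :
    v.nr (u ^ n * A) ≤ v.q ^ (-c) ↔ (A ≠ 0 → c ≤ n * v.ord u + v.ord A) := by
  by_cases hA : A = 0
  · subst hA
    rw [mul_zero, v.nr_zero]
    simp only [ne_eq, not_true_eq_false, false_implies, iff_true]
    exact (zpow_pos v.q_pos _).le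
  · have h1 : u ^ n * A ≠ 0 := mul_ne_zero (pow_ne_zero n hu) hA
    rw [v.nr_le_zpow_iff h1, v.ord_mul _ _ (pow_ne_zero n hu) hA, v.ord_pow]
    simp [hA]

theorem st_KMN : ST_KMN := by
  intro F _ _ v A B hD
  classical
  have hAB : A ≠ 0 ∨ B ≠ 0 := by
    by_contra hc
    push Not at hc
    apply hD
    rw [hc.1, hc.2]
    unfold dsc
    ring
  let P : ℤ → Prop := fun m => (A ≠ 0 → 4 * m ≤ v.ord A) ∧ (B ≠ 0 → 6 * m ≤ v.ord B)
  have hbdd : ∃ b : ℤ, ∀ z : ℤ, P z → z ≤ b := by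
    rcases hAB with h | h
    · refine ⟨|v.ord A|, fun z hz => ?_⟩
      have h1 := hz.1 h
      have h2 := le_abs_self (v.ord A)
      have h3 := abs_nonneg (v.ord A)
      omega
    · refine ⟨|v.ord B|, fun z hz => ?_⟩
      have h1 := hz.2 h
      have h2 := le_abs_self (v.ord B)
      have h3 := abs_nonneg (v.ord B)
      omega
  have hne : ∃ z : ℤ, P z := by
    refine ⟨-(|v.ord A| + |v.ord B|), fun _ => ?_, fun _ => ?_⟩
    · have h2 := neg_abs_le (v.ord A)
      have h3 := abs_nonneg (v.ord A)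
      have h4 := abs_nonneg (v.ord B)
      omega
    · have h2 := neg_abs_le (v.ord B)
      have h3 := abs_nonneg (v.ord A)
      have h4 := abs_nonneg (v.ord B)
      omega
  obtain ⟨m, hm, hmax⟩ := Int.exists_greatest_of_bdd hbdd hne
  obtain ⟨p, hp0, hp1, -⟩ := v.exists_unif
  have hu0 : p ^ (-m) ≠ 0 := zpow_ne_zero _ hp0
  have hou : v.ord (p ^ (-m)) = -m := by rw [v.ord_zpow, hp1, mul_one]
  have key : ∀ u : F, u ≠ 0 → (v.nr (u ^ 4 * A) ≤ 1 ∧ v.nr (u ^ 6 * B) ≤ 1 ↔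
      P (-v.ord u)) := by
    intro u hu
    have h4 := kmn_scale v (A := A) hu 4 0
    have h6 := kmn_scale v (A := B) hu 6 0
    rw [neg_zero, zpow_zero] at h4 h6
    rw [h4, h6]
    constructor
    · rintro ⟨h1, h2⟩
      refine ⟨fun h => ?_, fun h => ?_⟩
      · have := h1 h
        push_cast at this
        omega
      · have := h2 h
        push_cast at this
        omega
    · rintro ⟨h1, h2⟩
      refine ⟨fun h => ?_, fun h => ?_⟩
      · have := h1 h
        push_cast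
        omega
      · have := h2 h
        push_cast
        omega
  have hint := (key _ hu0).2 (by rw [hou, neg_neg]; exact hm)
  have hbig : ∀ u' : F, u' ≠ 0 → v.nr (u' ^ 4 * A) ≤ 1 → v.nr (u' ^ 6 * B) ≤ 1 →
      v.nr u' ≤ v.nr (p ^ (-m)) := by
    intro u' hu' h1 h2
    have h3 := hmax _ ((key u' hu').1 ⟨h1, h2⟩)
    rw [v.nr_of_ne hu', v.nr_of_ne hu0, hou, neg_neg]
    exact zpow_le_zpow_right₀ v.one_lt_q.le h3
  refine ⟨p ^ (-m), hu0, hint.1, hint.2, ?_, ?_, hbig⟩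
  · rintro ⟨h1, h2⟩
    have e4 := (kmn_scale v (A := A) hu0 4 4).1 h1
    have e6 := (kmn_scale v (A := B) hu0 6 6).1 h2
    rw [hou] at e4 e6
    have h3 : P (m + 1) := by
      refine ⟨fun h => ?_, fun h => ?_⟩
      · have := e4 h
        push_cast at this
        omega
      · have := e6 h
        push_cast at this
        omega
    have := hmax _ h3
    omega
  · have hdsc : ∀ u : F, dsc (u ^ 4 * A) (u ^ 6 * B) = u ^ 12 * (4 * A ^ 3 + 27 * B ^ 2) := by
      intro u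
      unfold dsc
      ring
    have hD' : 4 * A ^ 3 + 27 * B ^ 2 ≠ 0 := hD
    rw [hdsc]
    refine IsLeast.csInf_eq ⟨⟨p ^ (-m), hu0, hint.1, hint.2, rfl⟩, ?_⟩
    rintro r ⟨u', hu', h1, h2, rfl⟩
    refine neg_le_neg (Real.log_le_log (v.nr_pos (mul_ne_zero (pow_ne_zero _ hu') hD')) ?_)
    rw [v.nr_mul, v.nr_mul, v.nr_pow, v.nr_pow]
    exact mul_le_mul_of_nonneg_right (pow_le_pow_left₀ (v.nr_nonneg _) (hbig u' hu' h1 h2) 12)
      (v.nr_nonneg _)

end Pool.Agent.Helper42.LK
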